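import Pool.Agent.N848.AW.Stm
import Pool.Agent.R426.QK.LA1

/-!
# AW-LA1: the number of the random matrices with given values at `m` vectors

The argument of `Pool/Agent/R426/QK/LA1.lean` with arbitrary right hand sides.
-/

set_option autoImplicit false
set_option linter.unusedVariables false

open scoped Classical

namespace Pool.Agent.N849.AW

open Finset Pool.Agent.R426.QK Pool.Agent.R426.QK.LA0 Pool.Agent.R426.QK.LA1

section

variable {J : Type} [Fintype J] [LinearOrder J]

/-- the part of the rows which does not depend on the completion -/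
noncomputable def row0 (t : J → ZMod 2) {m : ℕ} (d : Fin m → J → ZMod 2) (i : Fin m) (k : J) :
    ZMod 2 := ∑ l, ext t 0 k l * (d i k + d i l)

theorem row_aff (t : J → ZMod 2) {m : ℕ} (d : Fin m → J → ZMod 2) (α : prs J → ZMod 2)
    (i : Fin m) (k : J) : ∑ l, ext t α k l * (d i k + d i l) = row0 t d i k +
      ∑ l, (aa α (l, k) + aa α (k, l)) * (d i k + d i l) := by
  unfold row0
  rw [← Finset.sum_add_distrib]
  refine Finset.sum_congr rfl fun l _ => ?_
  rw [ext_eq, ext_eq]
  have h1 : ∀ e : J × J, aa (0 : prs J → ZMod 2) e = 0 := by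
    intro e
    unfold aa
    split_ifs <;> rfl
  rw [h1, h1]
  ring

theorem row0_pol (t : J → ZMod 2) {m : ℕ} (d : Fin m → J → ZMod 2) (i j : Fin m) :
    ∑ k, d j k * row0 t d i k + ∑ k, d i k * row0 t d j k =
      (∑ k, t k * d i k) * (∑ k, t k * d j k) + ∑ k, t k * (d i k * d j k) := by
  have h := polar (fun _ : J => 0) t (ext t 0) (fun p q h => ext_add t 0 p q h) (d i) (d j)
  simp only [zero_mul, zero_add] at h
  exact h

theorem row0_sum (t : J → ZMod 2) {m : ℕ} (d : Fin m → J → ZMod 2) (i : Fin m) :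
    ∑ k, row0 t d i k = ∑ l, t l * (∑ j, t j + 1) * d i l := by
  have h := polar (fun _ : J => 0) t (ext t 0) (fun p q h => ext_add t 0 p q h) (d i)
    (fun _ => 1)
  simp only [zero_mul, zero_add, one_mul, mul_one, add_self0, mul_zero,
    Finset.sum_const_zero, add_zero] at h
  unfold row0
  rw [h, Finset.sum_mul, ← Finset.sum_add_distrib]
  refine Finset.sum_congr rfl fun l _ => ?_
  ring

end

/-- AW-LA1 -/
theorem t_LA1 : Pool.Agent.N848.AW.S_LA1 := by
  intro J _ _ t m d b hd
  obtain ⟨K, hKd⟩ : ∃ K : (Fin m × J → ZMod 2) → ZMod 2, K = fun y =>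
    ∑ p, y p * (row0 t d p.1 p.2 + b p.1 p.2) := ⟨_, rfl⟩
  -- the exponent
  have hexp : ∀ (y : Fin m × J → ZMod 2) (α : prs J → ZMod 2),
      ∑ p, y p * (∑ l, ext t α p.2 l * (d p.1 p.2 + d p.1 l) + b p.1 p.2) =
        K y + ∑ e : prs J, α e * cf d y e.1 := by
    intro y α
    have h0 : ∀ p : Fin m × J, y p * (∑ l, ext t α p.2 l * (d p.1 p.2 + d p.1 l) + b p.1 p.2) =
        y p * (row0 t d p.1 p.2 + b p.1 p.2) +
          y p * ∑ l, (aa α (l, p.2) + aa α (p.2, l)) * (d p.1 p.2 + d p.1 l) := by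
      intro p
      rw [row_aff t d α]
      ring
    rw [sum_aa, hKd, Finset.sum_congr rfl fun p _ => h0 p, Finset.sum_add_distrib]
    congr 1
    rw [← Finset.univ_product_univ, Finset.sum_product]
    have h1 : ∀ i : Fin m, ∑ k : J, (y (i, k) * ∑ l, (aa α (l, k) + aa α (k, l)) *
        (d i k + d i l)) = ∑ e ∈ prs J, aa α e * ((y (i, e.1) + y (i, e.2)) *
          (d i e.1 + d i e.2)) := by
      intro i
      simp only [Finset.mul_sum]
      rw [sum_pairs (fun k l => y (i, k) * ((aa α (l, k) + aa α (k, l)) * (d i k + d i l)))]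
      have h2 : ∑ k : J, y (i, k) * ((aa α (k, k) + aa α (k, k)) * (d i k + d i k)) = 0 :=
        Finset.sum_eq_zero fun k _ => by rw [add_self0 (d i k), mul_zero, mul_zero]
      rw [h2, add_zero]
      refine Finset.sum_congr rfl fun e he => ?_
      have h3 : e.1 < e.2 := mem_prs.1 he
      rw [aa_neg α (e := (e.2, e.1)) (not_lt.2 h3.le)]
      have h4 : aa α (e.1, e.2) = aa α e := rfl
      rw [h4]
      ring
    have h6 : ∑ e ∈ prs J, aa α e * cf d y e = ∑ i, ∑ e ∈ prs J,
        aa α e * ((y (i, e.1) + y (i, e.2)) * (d i e.1 + d i e.2)) := by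
      rw [Finset.sum_comm]
      refine Finset.sum_congr rfl fun e _ => ?_
      unfold cf
      rw [Finset.mul_sum]
    rw [h6]
    refine Finset.sum_congr rfl fun i _ => ?_
    exact h1 i
  -- the coefficients of the exponent at the solutions of the transposed system
  obtain ⟨be, hbe⟩ : ∃ be : Fin m → Fin m → ZMod 2, be = fun i j =>
    ((∑ k, t k * d i k) * (∑ k, t k * d j k) + ∑ k, t k * (d i k * d j k)) +
      ∑ k, (d j k * b i k + d i k * b j k) := ⟨_, rfl⟩
  obtain ⟨ga, hga⟩ : ∃ ga : Fin m → ZMod 2, ga = fun i =>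
    (∑ l, t l * (∑ j, t j + 1) * d i l) + ∑ k, b i k := ⟨_, rfl⟩
  have hKy : ∀ x : (prs (Fin m) → ZMod 2) × (Fin m → ZMod 2), K (yy d x) =
      ∑ e : prs (Fin m), x.1 e * be e.1.1 e.1.2 + ∑ i, x.2 i * ga i := by
    intro x
    rw [sum_aa x.1 fun e => be e.1 e.2, hKd]
    beta_reduce
    rw [← Finset.univ_product_univ, Finset.sum_product]
    have h1 : ∀ i : Fin m, ∑ k : J, yy d x (i, k) * (row0 t d i k + b i k) =
        ∑ j, gg x.1 i j * ∑ k, d j k * (row0 t d i k + b i k) + x.2 i * ga i := by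
      intro i
      have h0 : ga i = ∑ k, (row0 t d i k + b i k) := by
        rw [Finset.sum_add_distrib, row0_sum, hga]
      rw [h0]
      unfold yy
      simp only [add_mul, Finset.mul_sum, Finset.sum_mul]
      rw [Finset.sum_add_distrib]
      congr 1
      rw [Finset.sum_comm]
      refine Finset.sum_congr rfl fun j _ => Finset.sum_congr rfl fun k _ => ?_
      ring
    rw [Finset.sum_congr rfl fun i _ => h1 i, Finset.sum_add_distrib]
    congr 1
    rw [sum_pairs]
    simp only [gg_self, zero_mul, Finset.sum_const_zero, add_zero]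
    refine Finset.sum_congr rfl fun e he => ?_
    rw [gg_symm x.1 e.2 e.1, ← mul_add]
    have h2 : gg x.1 e.1 e.2 = aa x.1 e := by
      have h3 := gg_pos x.1 ⟨e, he⟩
      have h4 := aa_pos x.1 ⟨e, he⟩
      rw [h4]
      exact h3
    rw [h2]
    congr 1
    rw [hbe]
    beta_reduce
    rw [← row0_pol]
    simp only [mul_add, Finset.sum_add_distrib]
    ring
  -- the counting
  have hcount : ((univ.filter fun α : prs J → ZMod 2 =>
      ∀ i k, ∑ l, ext t α k l * (d i k + d i l) = b i k).card : ℤ) *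
        2 ^ Fintype.card (Fin m × J) =
      2 ^ Fintype.card (prs J) * ∑ y ∈ univ.filter (fun y => ∀ e : prs J, cf d y e.1 = 0),
        ch (K y) := by
    rw [Finset.card_filter]
    push_cast
    rw [Finset.sum_mul, Finset.mul_sum]
    have h1 : ∀ α : prs J → ZMod 2,
        (if ∀ i k, ∑ l, ext t α k l * (d i k + d i l) = b i k then (1 : ℤ) else 0) *
          2 ^ Fintype.card (Fin m × J) = ∑ y : Fin m × J → ZMod 2,
            ch (∑ p, y p * (∑ l, ext t α p.2 l * (d p.1 p.2 + d p.1 l) + b p.1 p.2)) := by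
      intro α
      rw [sum_ch]
      have h2 : (∀ i k, ∑ l, ext t α k l * (d i k + d i l) = b i k) ↔
          ∀ p : Fin m × J, ∑ l, ext t α p.2 l * (d p.1 p.2 + d p.1 l) + b p.1 p.2 = 0 :=
        ⟨fun h p => add_eq0.2 (h p.1 p.2), fun h i k => add_eq0.1 (h (i, k))⟩
      by_cases h3 : ∀ p : Fin m × J,
          ∑ l, ext t α p.2 l * (d p.1 p.2 + d p.1 l) + b p.1 p.2 = 0
      · rw [if_pos h3, if_pos (h2.2 h3), one_mul]
      · rw [if_neg h3, if_neg (fun h => h3 (h2.1 h)), zero_mul]
    rw [Finset.sum_congr rfl fun α _ => h1 α, Finset.sum_comm]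
    have h2 : ∀ y : Fin m × J → ZMod 2, ∑ α : prs J → ZMod 2,
        ch (∑ p, y p * (∑ l, ext t α p.2 l * (d p.1 p.2 + d p.1 l) + b p.1 p.2)) =
        if ∀ e : prs J, cf d y e.1 = 0 then 2 ^ Fintype.card (prs J) * ch (K y) else 0 := by
      intro y
      simp only [hexp y, ch_add]
      rw [← Finset.mul_sum, sum_ch]
      split_ifs
      · ring
      · ring
    rw [Finset.sum_congr rfl fun y _ => h2 y, Finset.sum_filter]
  have hbij : ∑ y ∈ univ.filter (fun y => ∀ e : prs J, cf d y e.1 = 0), ch (K y) =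
      ∑ x : (prs (Fin m) → ZMod 2) × (Fin m → ZMod 2), ch (K (yy d x)) := by
    symm
    refine Finset.sum_bij (fun x _ => yy d x) ?_ ?_ ?_ ?_
    · intro x _
      rw [Finset.mem_filter]
      exact ⟨Finset.mem_univ _, fun e => cf_yy d x e.1⟩
    · intro x _ x' _ h
      exact yy_inj d hd h
    · intro y hy
      rw [Finset.mem_filter] at hy
      obtain ⟨x, hx⟩ := yy_surj d hd y fun e he => hy.2 ⟨e, he⟩
      exact ⟨x, Finset.mem_univ _, hx⟩
    · intro x _
      rfl
  have h1 : ((∀ i, ∑ k, b i k = ∑ l, t l * (∑ j, t j + 1) * d i l) ∧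
        (∀ i j, ∑ k, (d j k * b i k + d i k * b j k) =
          (∑ k, t k * d i k) * (∑ k, t k * d j k) + ∑ k, t k * (d i k * d j k))) ↔
      (∀ e : prs (Fin m), be e.1.1 e.1.2 = 0) ∧ ∀ i, ga i = 0 := by
    have hga' : ∀ i, ga i = 0 ↔ ∑ k, b i k = ∑ l, t l * (∑ j, t j + 1) * d i l := by
      intro i
      rw [hga]
      beta_reduce
      rw [add_eq0]
      exact eq_comm
    have hbe' : ∀ i j, be i j = 0 ↔ ∑ k, (d j k * b i k + d i k * b j k) =
          (∑ k, t k * d i k) * (∑ k, t k * d j k) + ∑ k, t k * (d i k * d j k) := by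
      intro i j
      rw [hbe]
      beta_reduce
      rw [add_eq0]
      exact eq_comm
    have hbes : ∀ i j, be i j = be j i := by
      intro i j
      rw [hbe]
      beta_reduce
      simp only [mul_comm (d i _) (d j _)]
      rw [mul_comm (∑ k, t k * d i k)]
      congr 1
      exact Finset.sum_congr rfl fun k _ => add_comm _ _
    have hbe0 : ∀ i, be i i = 0 := by
      intro i
      rw [hbe]
      beta_reduce
      simp only [sq0, add_self0, Finset.sum_const_zero, add_zero]
    constructor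
    · rintro ⟨h2, h3⟩
      exact ⟨fun e => (hbe' _ _).2 (h3 _ _), fun i => (hga' i).2 (h2 i)⟩
    · rintro ⟨h2, h3⟩
      refine ⟨fun i => (hga' i).1 (h3 i), fun i j => (hbe' i j).1 ?_⟩
      rcases lt_trichotomy i j with h | h | h
      · exact h2 ⟨(i, j), mem_prs.2 h⟩
      · subst h
        exact hbe0 i
      · rw [hbes]
        exact h2 ⟨(j, i), mem_prs.2 h⟩
  have hval : ∑ x : (prs (Fin m) → ZMod 2) × (Fin m → ZMod 2), ch (K (yy d x)) =
      if (∀ i, ∑ k, b i k = ∑ l, t l * (∑ j, t j + 1) * d i l) ∧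
        (∀ i j, ∑ k, (d j k * b i k + d i k * b j k) =
          (∑ k, t k * d i k) * (∑ k, t k * d j k) + ∑ k, t k * (d i k * d j k))
      then 2 ^ (m.choose 2 + m) else 0 := by
    simp only [hKy, ch_add]
    rw [← Finset.univ_product_univ, Finset.sum_product]
    simp only [← Finset.mul_sum]
    rw [← Finset.sum_mul, sum_ch (fun i => ga i),
      sum_ch (fun e : prs (Fin m) => be e.1.1 e.1.2)]
    have h2 : Fintype.card (prs (Fin m)) = m.choose 2 := by
      rw [Fintype.card_coe, prs_card]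
    rw [h2, Fintype.card_fin]
    by_cases h3 : ∀ e : prs (Fin m), be e.1.1 e.1.2 = 0
    · by_cases h4 : ∀ i, ga i = 0
      · rw [if_pos h3, if_pos h4, if_pos (h1.2 ⟨h3, h4⟩), pow_add]
      · rw [if_pos h3, if_neg h4, if_neg (fun h => h4 (h1.1 h).2), mul_zero]
    · rw [if_neg h3, if_neg (fun h => h3 (h1.1 h).1), zero_mul]
  rw [hbij, hval] at hcount
  -- the exponents
  have hcard : Fintype.card (Fin m × J) = m * (Fintype.card J - 1) + m := by
    rw [Fintype.card_prod, Fintype.card_fin]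
    rcases Nat.eq_zero_or_pos m with h | h
    · subst h
      simp
    · obtain ⟨k, -, -⟩ := hd (fun _ => 1) ⟨⟨0, h⟩, by decide⟩
      have h1 : 0 < Fintype.card J := Fintype.card_pos_iff.2 ⟨k⟩
      obtain ⟨n, hn⟩ := Nat.exists_eq_succ_of_ne_zero h1.ne'
      rw [hn, Nat.succ_sub_one, Nat.mul_succ]
  rw [hcard, Fintype.card_coe, pow_add, ← mul_assoc] at hcount
  have h2m : (2 : ℤ) ^ m ≠ 0 := pow_ne_zero _ (by norm_num)
  by_cases hok : (∀ i, ∑ k, b i k = ∑ l, t l * (∑ j, t j + 1) * d i l) ∧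
        (∀ i j, ∑ k, (d j k * b i k + d i k * b j k) =
          (∑ k, t k * d i k) * (∑ k, t k * d j k) + ∑ k, t k * (d i k * d j k))
  · rw [if_pos hok] at hcount ⊢
    have h1 : (((univ.filter fun α : prs J → ZMod 2 =>
        ∀ i k, ∑ l, ext t α k l * (d i k + d i l) = b i k).card : ℤ) *
        2 ^ (m * (Fintype.card J - 1))) * 2 ^ m = 2 ^ ((prs J).card + m.choose 2) * 2 ^ m := by
      rw [hcount, ← pow_add, ← pow_add]
      congr 1
      ring
    have h2 := mul_right_cancel₀ h2m h1
    exact_mod_cast h2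
  · rw [if_neg hok] at hcount ⊢
    rw [mul_zero] at hcount
    have h2 := (mul_eq_zero.1 hcount).resolve_right h2m
    exact_mod_cast h2

end Pool.Agent.N849.AW
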